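import Mathlib
import Pool.Agent.W765.Uni2

set_option autoImplicit false

open Filter Topology Set

/-- Let `a, b ≥ 2` be multiplicatively independent.  (1) For every open `U` meeting `[0,1]` and every
`δ > 0` there is `M` such that for EVERY irrational `x`, every fraction `x = k / N` in lowest terms
with `N ≥ M` prime to `a b`, and every `x` such that all the points `T_a^j x` have at least `M` points
in their `T_b`-orbit: in every interval of `n ≥ M` integers `j` at most `δ n` have the property that
the `T_b`-orbit of `T_a^j x` misses `U`.  (2) For every infinite closed `X ⊆ R/Z` which is minimal for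
`T_a`, the points `x` of `X` whose `T_b`-orbit closure is `[0,1]` form a residual subset of `X`. -/
theorem Pool.Agent.Results.MP_c9a594_an.MostOrbitsDense.result :
    ∀ (a b : ℕ), 2 ≤ a → 2 ≤ b → Irrational (Real.log a / Real.log b) →
      (∀ U : Set ℝ, IsOpen U → (U ∩ Icc 0 1).Nonempty → ∀ δ : ℝ, 0 < δ →
        ∃ M : ℕ, ∀ x : ℝ,
          (Irrational x ∨ (∃ k N : ℕ, M ≤ N ∧ N.Coprime (a * b) ∧ k.Coprime N ∧ x = k / N) ∨
            ∀ j : ℕ, (M : ℕ∞) ≤
              (range fun m : ℕ => Int.fract ((b : ℝ) ^ m * ((a : ℝ) ^ j * x))).encard) →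
          ∀ s n : ℕ, M ≤ n →
            ({i : ℕ | i < n ∧ ∀ m : ℕ,
              Int.fract ((b : ℝ) ^ m * ((a : ℝ) ^ (s + i) * x)) ∉ U}.ncard : ℝ) ≤ δ * n) ∧
      (∀ X : Set (AddCircle (1 : ℝ)), IsClosed X → X.Infinite → (∀ x ∈ X, a • x ∈ X) →
        (∀ x ∈ X, X ⊆ closure (range fun n : ℕ => a ^ n • x)) →
        {x : X | ∀ r : ℝ, (r : AddCircle (1 : ℝ)) = x →
          closure (range fun n : ℕ => Int.fract ((b : ℝ) ^ n * r)) = Icc 0 1} ∈ residual X) := by
  intro a b ha hb hirr
  have hirr' : Irrational (Real.log b / Real.log a) := by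
    have := hirr.inv
    rwa [inv_div] at this
  have h := Pool.Agent.H705R2.mulIndep_of_irrational hb ha hirr'
  refine ⟨fun U hU hUne δ hδ => ?_, fun X hX hinf hinv hmin => ?_⟩
  · classical
    obtain ⟨M, hM⟩ := Pool.Agent.W765.Det.uniform_fract ha hb h hU hUne hδ
    refine ⟨M, fun x hx s n hn => le_trans (le_of_eq ?_) (hM x hx s n hn)⟩
    rw [← Set.ncard_coe_finset]
    congr 2
    ext i
    simp
  · refine Filter.mem_of_superset
      (Pool.Agent.W765.Det.residual_dense hb ha h hX hinf hinv hmin) ?_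
    intro x hx r hr
    refine Pool.Agent.W765.Det.closure_fract ?_
    rw [hr]; exact hx
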